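import Pool.Agent.Helper56.RZ.GoalsA

/-!
# Project RZ (MP_f32c9c_an), packet DP

The inequalities of partial hyperbolicity persist.
-/

set_option autoImplicit false

open Set Filter Topology

namespace Pool.Agent.Helper70.RZ

open Pool.Agent.Helper56.RZ

section
variable {X : Type} [MetricSpace X] [CompactSpace X] {K : ℕ}

omit [CompactSpace X] in
theorem contAn (C : Coc X K) (n : ℕ) : Continuous (C.An n) := by
  induction n with
  | zero => exact C.contT
  | succ n ih =>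
    exact (C.contA.comp (C.f.continuous.iterate n)).mul ih

omit [CompactSpace X] in
theorem close_inv {C C' : Coc X K} {δ : ℝ} (h : Close C C' δ) : Close C.inv C'.inv δ := by
  refine ⟨h.1, fun x => ⟨(h.2 x).2.1, (h.2 x).1, (h.2 x).2.2.2, (h.2 x).2.2.1⟩⟩

theorem bound_of_cont {A : X → End K} (hA : Continuous A) : ∃ M : ℝ, 0 ≤ M ∧ ∀ x, ‖A x‖ ≤ M := by
  obtain ⟨M, hM⟩ := (isCompact_univ (X := X)).exists_bound_of_continuousOn hA.continuousOn
  exact ⟨max M 0, le_max_right _ _, fun x => (hM x (mem_univ x)).trans (le_max_left _ _)⟩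

/-- iterates of close cocycles are close -/
theorem an_close (C : Coc X K) (n : ℕ) : ∀ ε : ℝ, 0 < ε → ∃ δ : ℝ, 0 < δ ∧
    ∀ C' : Coc X K, Close C C' δ → ∀ x, dist (C'.f^[n] x) (C.f^[n] x) ≤ ε ∧
      ‖C'.An n x - C.An n x‖ ≤ ε := by
  induction n with
  | zero =>
    intro ε hε
    refine ⟨1, one_pos, fun C' h x => ?_⟩
    constructor
    · simp [hε.le]
    · change ‖C'.T x - C.T x‖ ≤ ε
      rw [h.1, sub_self, norm_zero]; exact hε.le
  | succ n ih =>
    intro ε hε
    obtain ⟨M, hM0, hM⟩ := bound_of_cont C.contA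
    obtain ⟨L, hL0, hL⟩ := bound_of_cont (contAn C n)
    have hucA := CompactSpace.uniformContinuous_of_continuous C.contA
    have hucf := CompactSpace.uniformContinuous_of_continuous C.f.continuous
    rw [Metric.uniformContinuous_iff] at hucA hucf
    obtain ⟨e1, he1, hA1⟩ := hucA (ε / (3 * (L + 1))) (by positivity)
    obtain ⟨e2, he2, hf2⟩ := hucf (ε / 2) (by positivity)
    have hpos : 0 < min (min (e1 / 2) (e2 / 2)) (min 1 (ε / (3 * (M + 1)))) := by positivity
    obtain ⟨d, hd, hd'⟩ := ih _ hpos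
    refine ⟨min d (min (ε / 2) (ε / (3 * (L + 1)))), by positivity, fun C' h x => ?_⟩
    have hcl : Close C C' d := by
      refine ⟨h.1, fun y => ?_⟩
      have := h.2 y
      exact ⟨this.1.trans (min_le_left _ _), this.2.1.trans (min_le_left _ _),
        this.2.2.1.trans (min_le_left _ _), this.2.2.2.trans (min_le_left _ _)⟩
    obtain ⟨h1, h2⟩ := hd' C' hcl x
    have h1a : dist (C'.f^[n] x) (C.f^[n] x) < e1 := by
      have : dist (C'.f^[n] x) (C.f^[n] x) ≤ e1 / 2 :=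
        h1.trans ((min_le_left _ _).trans (min_le_left _ _))
      linarith
    have h1b : dist (C'.f^[n] x) (C.f^[n] x) < e2 := by
      have : dist (C'.f^[n] x) (C.f^[n] x) ≤ e2 / 2 :=
        h1.trans ((min_le_left _ _).trans (min_le_right _ _))
      linarith
    have h2a : ‖C'.An n x - C.An n x‖ ≤ 1 := h2.trans ((min_le_right _ _).trans (min_le_left _ _))
    have h2b : ‖C'.An n x - C.An n x‖ ≤ ε / (3 * (M + 1)) :=
      h2.trans ((min_le_right _ _).trans (min_le_right _ _))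
    constructor
    · rw [Function.iterate_succ_apply', Function.iterate_succ_apply']
      have a1 := (h.2 (C'.f^[n] x)).1
      have a2 := (hf2 h1b).le
      have a3 : dist (C'.f (C'.f^[n] x)) (C.f (C'.f^[n] x)) ≤ ε / 2 :=
        a1.trans ((min_le_right _ _).trans (min_le_left _ _))
      calc dist (C'.f (C'.f^[n] x)) (C.f (C.f^[n] x))
          ≤ dist (C'.f (C'.f^[n] x)) (C.f (C'.f^[n] x)) +
            dist (C.f (C'.f^[n] x)) (C.f (C.f^[n] x)) := dist_triangle _ _ _
        _ ≤ ε / 2 + ε / 2 := add_le_add a3 a2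
        _ = ε := by ring
    · change ‖C'.A (C'.f^[n] x) * C'.An n x - C.A (C.f^[n] x) * C.An n x‖ ≤ ε
      have e : C'.A (C'.f^[n] x) * C'.An n x - C.A (C.f^[n] x) * C.An n x =
          (C'.A (C'.f^[n] x) - C.A (C'.f^[n] x)) * C'.An n x +
          (C.A (C'.f^[n] x) - C.A (C.f^[n] x)) * C'.An n x +
          C.A (C.f^[n] x) * (C'.An n x - C.An n x) := by
        rw [sub_mul, sub_mul, mul_sub]; abel
      have hAn : ‖C'.An n x‖ ≤ L + 1 := by
        have : C'.An n x = (C'.An n x - C.An n x) + C.An n x := by abel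
        rw [this]
        refine (norm_add_le _ _).trans ?_
        have := hL x
        linarith
      have b1 : ‖(C'.A (C'.f^[n] x) - C.A (C'.f^[n] x)) * C'.An n x‖ ≤ ε / 3 := by
        refine (norm_mul_le _ _).trans ?_
        have := (h.2 (C'.f^[n] x)).2.2.1.trans ((min_le_right _ _).trans (min_le_right _ _))
        calc _ ≤ (ε / (3 * (L + 1))) * (L + 1) :=
              mul_le_mul this hAn (norm_nonneg _) (by positivity)
          _ = ε / 3 := by field_simp
      have b2 : ‖(C.A (C'.f^[n] x) - C.A (C.f^[n] x)) * C'.An n x‖ ≤ ε / 3 := by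
        refine (norm_mul_le _ _).trans ?_
        have := (hA1 h1a).le
        rw [dist_eq_norm] at this
        calc _ ≤ (ε / (3 * (L + 1))) * (L + 1) :=
              mul_le_mul this hAn (norm_nonneg _) (by positivity)
          _ = ε / 3 := by field_simp
      have b3 : ‖C.A (C.f^[n] x) * (C'.An n x - C.An n x)‖ ≤ ε / 3 := by
        refine (norm_mul_le _ _).trans ?_
        calc _ ≤ (M + 1) * (ε / (3 * (M + 1))) :=
              mul_le_mul ((hM _).trans (by linarith)) h2b (norm_nonneg _) (by positivity)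
          _ = ε / 3 := by field_simp
      rw [e]
      calc _ ≤ ‖(C'.A (C'.f^[n] x) - C.A (C'.f^[n] x)) * C'.An n x‖ +
            ‖(C.A (C'.f^[n] x) - C.A (C.f^[n] x)) * C'.An n x‖ +
            ‖C.A (C.f^[n] x) * (C'.An n x - C.An n x)‖ := norm_add₃_le
        _ ≤ ε / 3 + ε / 3 + ε / 3 := add_le_add (add_le_add b1 b2) b3
        _ = ε := by ring

/-- unit vectors of the range of a projection close to `P` -/
theorem unit_close {P Q : End K} (hP : P * P = P) {δ : ℝ} (hδ : δ < 1) (h : ‖Q - P‖ ≤ δ)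
    {v : E K} (hv : Q v = v) (hv1 : ‖v‖ = 1) :
    ∃ u : E K, P u = u ∧ ‖u‖ = 1 ∧ ‖v - u‖ ≤ 2 * δ := by
  have h1 : ‖v - P v‖ ≤ δ := by
    have : v - P v = (Q - P) v := by
      rw [sub_apply, hv]
    rw [this]
    calc _ ≤ ‖Q - P‖ * ‖v‖ := ContinuousLinearMap.le_opNorm _ _
      _ ≤ δ := by rw [hv1, mul_one]; exact h
  have h2 : |1 - ‖P v‖| ≤ δ := by
    rw [← hv1]
    exact (abs_norm_sub_norm_le _ _).trans h1
  have hpos : 0 < ‖P v‖ := by
    have := (abs_le.1 h2).2
    linarith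
  refine ⟨(‖P v‖)⁻¹ • P v, ?_, ?_, ?_⟩
  · rw [map_smul]
    congr 1
    change (P * P) v = P v
    rw [hP]
  · rw [norm_smul, norm_inv, norm_norm, inv_mul_cancel₀ hpos.ne']
  · have h3 : ‖P v - (‖P v‖)⁻¹ • P v‖ ≤ δ := by
      have : P v - (‖P v‖)⁻¹ • P v = (1 - (‖P v‖)⁻¹) • P v := by rw [sub_smul, one_smul]
      rw [this, norm_smul, Real.norm_eq_abs]
      have e : |1 - (‖P v‖)⁻¹| * ‖P v‖ = |1 - ‖P v‖| := by
        have e1 : |1 - (‖P v‖)⁻¹| * ‖P v‖ = |(1 - (‖P v‖)⁻¹) * ‖P v‖| := by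
          rw [abs_mul, abs_norm]
        rw [e1, sub_mul, inv_mul_cancel₀ hpos.ne', one_mul, abs_sub_comm]
      rw [e]; exact h2
    calc ‖v - (‖P v‖)⁻¹ • P v‖ = ‖(v - P v) + (P v - (‖P v‖)⁻¹ • P v)‖ := by congr 1; abel
      _ ≤ ‖v - P v‖ + ‖P v - (‖P v‖)⁻¹ • P v‖ := norm_add_le _ _
      _ ≤ 2 * δ := by linarith

/-- approximation -/
theorem approx (C : Coc X K) (P : Fin 3 → X → End K) (hP : ∀ i x, P i x * P i x = P i x) (n : ℕ)
    (ε : ℝ) (hε : 0 < ε) : ∃ δ : ℝ, 0 < δ ∧ ∀ C' : Coc X K, Close C C' δ →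
    ∀ Q : Fin 3 → X → End K, (∀ x i, ‖Q i x - P i x‖ ≤ δ) →
    ∀ i x v, Q i x v = v → ‖v‖ = 1 → ∃ u, P i x u = u ∧ ‖u‖ = 1 ∧
      |‖C'.An n x v‖ - ‖C.An n x u‖| ≤ ε := by
  obtain ⟨d, hd, hd'⟩ := an_close C n (ε / 2) (by positivity)
  obtain ⟨L, hL0, hL⟩ := bound_of_cont (contAn C n)
  refine ⟨min d (min (1 / 2) (ε / (4 * (L + 1)))), by positivity, fun C' h Q hQ i x v hv hv1 => ?_⟩
  have hcl : Close C C' d := by
    refine ⟨h.1, fun y => ?_⟩
    have := h.2 y
    exact ⟨this.1.trans (min_le_left _ _), this.2.1.trans (min_le_left _ _),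
      this.2.2.1.trans (min_le_left _ _), this.2.2.2.trans (min_le_left _ _)⟩
  have h1 := (hd' C' hcl x).2
  have hdelta : min d (min (1 / 2) (ε / (4 * (L + 1)))) < 1 := by
    have : min d (min (1 / 2) (ε / (4 * (L + 1)))) ≤ 1 / 2 :=
      (min_le_right _ _).trans (min_le_left _ _)
    linarith
  obtain ⟨u, hu, hu1, hu2⟩ := unit_close (hP i x) hdelta (hQ x i) hv hv1
  refine ⟨u, hu, hu1, ?_⟩
  have h2 : ‖v - u‖ ≤ ε / (2 * (L + 1)) := by
    have : min d (min (1 / 2) (ε / (4 * (L + 1)))) ≤ ε / (4 * (L + 1)) :=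
      (min_le_right _ _).trans (min_le_right _ _)
    have e : ε / (2 * (L + 1)) = 2 * (ε / (4 * (L + 1))) := by field_simp; ring
    rw [e]
    linarith
  refine (abs_norm_sub_norm_le _ _).trans ?_
  have e : C'.An n x v - C.An n x u = (C'.An n x - C.An n x) v + C.An n x (v - u) := by
    rw [sub_apply, map_sub]; abel
  rw [e]
  have b1 : ‖(C'.An n x - C.An n x) v‖ ≤ ε / 2 := by
    refine (ContinuousLinearMap.le_opNorm _ _).trans ?_
    rw [hv1, mul_one]; exact h1
  have b2 : ‖C.An n x (v - u)‖ ≤ ε / 2 := by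
    refine (ContinuousLinearMap.le_opNorm _ _).trans ?_
    calc ‖C.An n x‖ * ‖v - u‖ ≤ (L + 1) * (ε / (2 * (L + 1))) :=
          mul_le_mul ((hL x).trans (by linarith)) h2 (norm_nonneg _) (by positivity)
      _ = ε / 2 := by field_simp
  calc _ ≤ ‖(C'.An n x - C.An n x) v‖ + ‖C.An n x (v - u)‖ := norm_add_le _ _
    _ ≤ ε := by linarith

/-- margin for one unit vector -/
theorem margin1 (P A : X → End K) (hP : Continuous P) (hA : Continuous A)
    (h : ∀ x v, P x v = v → ‖v‖ = 1 → ‖A x v‖ < 1) :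
    ∃ η : ℝ, 0 < η ∧ ∀ x v, P x v = v → ‖v‖ = 1 → ‖A x v‖ + η ≤ 1 := by
  have hc : IsCompact {p : X × E K | P p.1 p.2 = p.2 ∧ ‖p.2‖ = 1} := by
    refine ((isCompact_univ (X := X)).prod (isCompact_closedBall (0 : E K) 1)).of_isClosed_subset
      ?_ ?_
    · exact (isClosed_eq ((hP.comp continuous_fst).clm_apply continuous_snd)
        continuous_snd).inter (isClosed_eq continuous_snd.norm continuous_const)
    · intro p hp
      refine ⟨mem_univ _, ?_⟩
      rw [mem_closedBall_zero_iff]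
      exact hp.2.le
  obtain ⟨a, ha, ha'⟩ := hc.exists_forall_le' (f := fun p : X × E K => 1 - ‖A p.1 p.2‖) (a := 0)
    ((continuous_const.sub ((hA.comp continuous_fst).clm_apply continuous_snd).norm).continuousOn)
    (fun p hp => by
      have := h p.1 p.2 hp.1 hp.2
      linarith)
  refine ⟨a, ha, fun x v hv hv1 => ?_⟩
  have := ha' (x, v) ⟨hv, hv1⟩
  simp only at this
  linarith

/-- margin for two unit vectors -/
theorem margin2 (P Q A : X → End K) (hP : Continuous P) (hQ : Continuous Q) (hA : Continuous A)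
    (h : ∀ x v w, P x v = v → Q x w = w → ‖v‖ = 1 → ‖w‖ = 1 → ‖A x v‖ < ‖A x w‖) :
    ∃ η : ℝ, 0 < η ∧ ∀ x v w, P x v = v → Q x w = w → ‖v‖ = 1 → ‖w‖ = 1 →
      ‖A x v‖ + η ≤ ‖A x w‖ := by
  have c1 : Continuous (fun p : X × E K × E K => p.2.1) := continuous_fst.comp continuous_snd
  have c2 : Continuous (fun p : X × E K × E K => p.2.2) := continuous_snd.comp continuous_snd
  have hc : IsCompact {p : X × E K × E K | (P p.1 p.2.1 = p.2.1 ∧ Q p.1 p.2.2 = p.2.2) ∧
      (‖p.2.1‖ = 1 ∧ ‖p.2.2‖ = 1)} := by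
    refine ((isCompact_univ (X := X)).prod ((isCompact_closedBall (0 : E K) 1).prod
      (isCompact_closedBall (0 : E K) 1))).of_isClosed_subset ?_ ?_
    · exact ((isClosed_eq ((hP.comp continuous_fst).clm_apply c1) c1).inter
        (isClosed_eq ((hQ.comp continuous_fst).clm_apply c2) c2)).inter
        ((isClosed_eq c1.norm continuous_const).inter (isClosed_eq c2.norm continuous_const))
    · intro p hp
      refine ⟨mem_univ _, ?_, ?_⟩
      · rw [mem_closedBall_zero_iff]; exact hp.2.1.le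
      · rw [mem_closedBall_zero_iff]; exact hp.2.2.le
  obtain ⟨a, ha, ha'⟩ := hc.exists_forall_le'
    (f := fun p : X × E K × E K => ‖A p.1 p.2.2‖ - ‖A p.1 p.2.1‖) (a := 0)
    ((((hA.comp continuous_fst).clm_apply c2).norm.sub
      ((hA.comp continuous_fst).clm_apply c1).norm).continuousOn)
    (fun p hp => by
      have := h p.1 p.2.1 p.2.2 hp.1.1 hp.1.2 hp.2.1 hp.2.2
      linarith)
  refine ⟨a, ha, fun x v w hv hw hv1 hw1 => ?_⟩
  have := ha' (x, v, w) ⟨⟨hv, hw⟩, hv1, hw1⟩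
  simp only at this
  linarith

theorem scale {T Q : End K} (h : ∀ v, Q v = v → ‖v‖ = 1 → ‖T v‖ < 1) (v : E K) (hv : Q v = v)
    (h0 : v ≠ 0) : ‖T v‖ < ‖v‖ := by
  have hpos : 0 < ‖v‖ := norm_pos_iff.2 h0
  have h1 := h ((‖v‖)⁻¹ • v) (by rw [map_smul, hv])
    (by rw [norm_smul, norm_inv, norm_norm, inv_mul_cancel₀ hpos.ne'])
  rw [map_smul, norm_smul, norm_inv, norm_norm, inv_mul_lt_iff₀ hpos, mul_one] at h1
  exact h1

end

theorem dp : StmtDP := by
  intro X _ _ K C P n hS hD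
  obtain ⟨hn, hD⟩ := hD
  have hP : ∀ i x, P i x * P i x = P i x := fun i x => by
    have := hS.proj x i i
    rwa [if_pos rfl] at this
  obtain ⟨η0, hη0, m0⟩ := margin1 (P 0) (C.An n) (hS.cont 0) (contAn C n)
    (fun x v hv hv1 => by
      have := (hD x).1 v hv (fun h => by rw [h, norm_zero] at hv1; exact zero_ne_one hv1)
      rwa [hv1] at this)
  obtain ⟨η1, hη1, m1⟩ := margin1 (P 2) (C.inv.An n) (hS.cont 2) (contAn C.inv n)
    (fun x v hv hv1 => by
      have := (hD x).2.1 v hv (fun h => by rw [h, norm_zero] at hv1; exact zero_ne_one hv1)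
      rwa [hv1] at this)
  obtain ⟨η2, hη2, m2⟩ := margin2 (P 0) (P 1) (C.An n) (hS.cont 0) (hS.cont 1) (contAn C n)
    (fun x v w => (hD x).2.2.1 v w)
  obtain ⟨η3, hη3, m3⟩ := margin2 (P 1) (P 2) (C.An n) (hS.cont 1) (hS.cont 2) (contAn C n)
    (fun x v w => (hD x).2.2.2 v w)
  have hpos : 0 < min (min η0 η1) (min η2 η3) / 3 := by positivity
  obtain ⟨d1, hd1, a1⟩ := approx C P hP n _ hpos
  obtain ⟨d2, hd2, a2⟩ := approx C.inv P hP n _ hpos
  refine ⟨min d1 d2, lt_min hd1 hd2, fun C' hC Q hQQ hQ => ?_⟩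
  have cl1 : Close C C' d1 := ⟨hC.1, fun y => by
    have := hC.2 y
    exact ⟨this.1.trans (min_le_left _ _), this.2.1.trans (min_le_left _ _),
      this.2.2.1.trans (min_le_left _ _), this.2.2.2.trans (min_le_left _ _)⟩⟩
  have cl2 : Close C C' d2 := ⟨hC.1, fun y => by
    have := hC.2 y
    exact ⟨this.1.trans (min_le_right _ _), this.2.1.trans (min_le_right _ _),
      this.2.2.1.trans (min_le_right _ _), this.2.2.2.trans (min_le_right _ _)⟩⟩
  have b1 := a1 C' cl1 Q (fun x i => (hQ x i).trans (min_le_left _ _))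
  have b2 := a2 C'.inv (close_inv cl2) Q (fun x i => (hQ x i).trans (min_le_right _ _))
  have l0 : min (min η0 η1) (min η2 η3) ≤ η0 := (min_le_left _ _).trans (min_le_left _ _)
  have l1 : min (min η0 η1) (min η2 η3) ≤ η1 := (min_le_left _ _).trans (min_le_right _ _)
  have l2 : min (min η0 η1) (min η2 η3) ≤ η2 := (min_le_right _ _).trans (min_le_left _ _)
  have l3 : min (min η0 η1) (min η2 η3) ≤ η3 := (min_le_right _ _).trans (min_le_right _ _)
  refine ⟨hn, fun x => ⟨?_, ?_, ?_, ?_⟩⟩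
  · refine scale fun v hv hv1 => ?_
    obtain ⟨u, hu, hu1, hu2⟩ := b1 0 x v hv hv1
    have := m0 x u hu hu1
    have := (abs_le.1 hu2).2
    linarith
  · refine scale fun v hv hv1 => ?_
    obtain ⟨u, hu, hu1, hu2⟩ := b2 2 x v hv hv1
    have := m1 x u hu hu1
    have := (abs_le.1 hu2).2
    linarith
  · intro v w hv hw hv1 hw1
    obtain ⟨u, hu, hu1, hu2⟩ := b1 0 x v hv hv1
    obtain ⟨z, hz, hz1, hz2⟩ := b1 1 x w hw hw1
    have := m2 x u z hu hz hu1 hz1
    have := (abs_le.1 hu2).2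
    have := (abs_le.1 hz2).1
    linarith
  · intro v w hv hw hv1 hw1
    obtain ⟨u, hu, hu1, hu2⟩ := b1 1 x v hv hv1
    obtain ⟨z, hz, hz1, hz2⟩ := b1 2 x w hw hw1
    have := m3 x u z hu hz hu1 hz1
    have := (abs_le.1 hu2).2
    have := (abs_le.1 hz2).1
    linarith

end Pool.Agent.Helper70.RZ
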