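import Pool.Agent.Helper56.RZ.GoalsC
import Pool.Agent.Helper95.RZ.K1
import Pool.Agent.Helper55.RZ.T5

/-!
# Project RZ (MP_f32c9c_an), packet BL

Volume preservation: lower bound for the product of the norms.
-/

set_option autoImplicit false

open Set Filter Topology MeasureTheory

open scoped ContDiff

namespace Pool.Agent.Helper70.RZ

open Pool.Agent.Helper56.RZ

variable {K : ℕ} {M : Set (E K)}

lemma pres_id (m : Measure (E K)) (h0 : m Mᶜ = 0) : Preserves M m id := by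
  intro A _
  rw [Set.preimage_id]
  refine le_antisymm (measure_mono inter_subset_left) ?_
  calc m A ≤ m (A ∩ M) + m (A \ M) := by
        rw [← Set.inter_union_sdiff A M]
        refine (measure_union_le _ _).trans ?_
        rw [Set.inter_union_sdiff A M]
    _ ≤ m (A ∩ M) + m Mᶜ := by
        gcongr
        exact fun x hx => hx.2
    _ = m (A ∩ M) := by rw [h0, add_zero]

lemma iter_all (hMS : StmtMS) {N : ℕ} {m : Measure (E K)} (hV : SmoothVolume N K M m)
    {f f' : E K → E K} (hd : IsDiffeo 1 M f f') (hp : Preserves M m f) (n : ℕ) :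
    IsDiffeo 1 M (f^[n]) (f'^[n]) ∧ Preserves M m (f^[n]) := by
  have hd' : IsDiffeo 1 M f' f := Pool.Agent.Helper55.RZ.isDiffeo_swap hd
  have h1 : ∀ n, IsDiffeo 1 M (f^[n]) (f'^[n]) := by
    intro n
    refine ⟨hd.maps.iterate n, hd.maps'.iterate n, ?_, ?_,
      Pool.Agent.Helper55.RZ.iter_smooth hd n, Pool.Agent.Helper55.RZ.iter_smooth hd' n⟩
    · induction n with
      | zero => intro x _; rfl
      | succ n ih =>
        intro x hx
        rw [Function.iterate_succ_apply' f, Function.iterate_succ_apply f',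
          hd.left _ (hd.maps.iterate n hx), ih x hx]
    · induction n with
      | zero => intro x _; rfl
      | succ n ih =>
        intro x hx
        rw [Function.iterate_succ_apply' f', Function.iterate_succ_apply f,
          hd.right _ (hd.maps'.iterate n hx), ih x hx]
  refine ⟨h1 n, ?_⟩
  induction n with
  | zero => exact pres_id m hV.null
  | succ n ih =>
    rw [Function.iterate_succ']
    exact ((hMS N K M m hV).1 f f' hd hp).2 (f^[n]) (f'^[n]) (h1 n) ih

lemma finrank_comp_le {N : ℕ} (u : E N →L[ℝ] E K) (v : E K →L[ℝ] E N) (A : End K) :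
    Module.finrank ℝ (LinearMap.range ((v ∘L A ∘L u : End N) : E N →ₗ[ℝ] E N)) ≤
      Module.finrank ℝ (LinearMap.range (A : E K →ₗ[ℝ] E K)) := by
  have h1 : LinearMap.range ((v ∘L A ∘L u : End N) : E N →ₗ[ℝ] E N) ≤
      Submodule.map (v : E K →ₗ[ℝ] E N) (LinearMap.range (A : E K →ₗ[ℝ] E K)) := by
    rintro _ ⟨x, rfl⟩
    exact ⟨A (u x), ⟨u x, rfl⟩, rfl⟩
  exact (Submodule.finrank_mono h1).trans (Submodule.finrank_map_le _ _)

lemma finrank_comp_eq {N : ℕ} (u : E N →L[ℝ] E K) (v : E K →L[ℝ] E N) (T : End K) (A : End K)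
    (h3 : u ∘L v ∘L T = T) (hTA : T * A = A) (hAT : A * T = A) :
    Module.finrank ℝ (LinearMap.range ((v ∘L A ∘L u : End N) : E N →ₗ[ℝ] E N)) =
      Module.finrank ℝ (LinearMap.range (A : E K →ₗ[ℝ] E K)) := by
  refine le_antisymm (finrank_comp_le u v A) ?_
  have e3 : ∀ x, u (v (T x)) = T x := fun x => by
    have := congrArg (fun f : E K →L[ℝ] E K => f x) h3
    simpa using this
  have e4 : ∀ x, T (A x) = A x := fun x => by
    have := congrArg (fun f : End K => f x) hTA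
    simpa using this
  have e5 : ∀ x, A (T x) = A x := fun x => by
    have := congrArg (fun f : End K => f x) hAT
    simpa using this
  have h1 : LinearMap.range (A : E K →ₗ[ℝ] E K) ≤
      Submodule.map (u : E N →ₗ[ℝ] E K)
        (LinearMap.range ((v ∘L A ∘L u : End N) : E N →ₗ[ℝ] E N)) := by
    rintro _ ⟨x, rfl⟩
    refine ⟨v (A (u (v (T x)))), ⟨v (T x), rfl⟩, ?_⟩
    change u (v (A (u (v (T x))))) = A x
    rw [e3, e5, ← e4, e3, e4]
  exact (Submodule.finrank_mono h1).trans (Submodule.finrank_map_le _ _)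

theorem bl (hT1 : StmtT1) (hT5 : StmtT5) (hMS : StmtMS) (hUC : StmtUC)
    (hDV : StmtDV) (hBA : StmtBA) : StmtBL := by
  intro N K M m f f' P C hV hd hp hPH hRep hrank
  obtain ⟨R, hR1, hR⟩ := hUC N K M m hV
  have hR0 : 0 < R := by linarith
  refine ⟨(3 ^ N * (R ^ 2 * R ^ 2 * (R ^ 2) ^ (N - 2)))⁻¹, by positivity, fun n x => ?_⟩
  obtain ⟨hdn, hpn⟩ := iter_all hMS hV hd hp n
  have hx := x.2
  have hgx : f^[n] (x : E K) ∈ M := hdn.maps hx
  obtain ⟨c, z, hz, hcz, hu, hv, hcv⟩ := hR x hx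
  obtain ⟨c', z', hz', hcz', hu', hv', hcv'⟩ := hR _ hgx
  obtain ⟨t1, t2, t3⟩ := hT1 N K M c z hz
  have hAn : C.An n x = der M (f^[n]) x := ((hT5 K M f f' C hd hRep).2.2.1 n x).1
  have hTP : ∀ i, Pi M x * P i x = P i x := by
    intro i
    rw [← hPH.sum x hx, add_mul, add_mul, hPH.proj x hx, hPH.proj x hx, hPH.proj x hx]
    fin_cases i <;> simp
  have hPT : ∀ i, P i x * Pi M x = P i x := by
    intro i
    rw [← hPH.sum x hx, mul_add, mul_add, hPH.proj x hx, hPH.proj x hx, hPH.proj x hx]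
    fin_cases i <;> simp
  set u : E N →L[ℝ] E K := fderiv ℝ c.ψ z with hudef
  set v : E K →L[ℝ] E N := fderiv ℝ c.φ (c.ψ z) with hvdef
  set v' : E K →L[ℝ] E N := fderiv ℝ c'.φ (c'.ψ z') with hv'def
  rw [hcz] at t2 t3
  have hdet := hDV N K M m (f^[n]) (f'^[n]) c c' hV hdn hpn hcv hcv' z hz z' hz'
    (by rw [hcz, hcz'])
  rw [hcz] at hdet
  obtain ⟨q1, q2⟩ := Pool.Agent.Helper95.RZ.k1_alg u v (Pi M x) (fun i => P i x) t1 t2 t3
    (hPH.proj x hx) (hPH.sum x hx)
  have hba := hBA N (v' ∘L (der M (f^[n]) x) ∘L u) (fun i => v ∘L P i x ∘L u) q1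
    (fun i => q2 i (hPH.ne x hx i))
    ((finrank_comp_eq u v (Pi M x) (P 0 x) t3 (hTP 0) (hPT 0)).trans (hrank x hx).1)
    ((finrank_comp_eq u v (Pi M x) (P 2 x) t3 (hTP 2) (hPT 2)).trans (hrank x hx).2) hdet
  have e3 : ∀ y, u (v (Pi M x y)) = Pi M x y := fun y => by
    have := congrArg (fun f : E K →L[ℝ] E K => f y) t3
    simpa using this
  have e4 : ∀ i y, Pi M x (P i x y) = P i x y := fun i y => by
    have := congrArg (fun f : End K => f y) (hTP i)
    simpa using this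
  have hL : ∀ i, (v' ∘L (der M (f^[n]) x) ∘L u) * (v ∘L P i x ∘L u) =
      v' ∘L (C.An n x * P i x) ∘L u := by
    intro i
    refine ContinuousLinearMap.ext fun y => ?_
    change v' (der M (f^[n]) x (u (v (P i x (u y))))) = v' (C.An n x (P i x (u y)))
    rw [hAn, ← e4, e3]
  have hn : ∀ i, ‖(v' ∘L (der M (f^[n]) x) ∘L u) * (v ∘L P i x ∘L u)‖ ≤
      R ^ 2 * ‖C.An n x * P i x‖ := by
    intro i
    rw [hL i]
    calc ‖v' ∘L (C.An n x * P i x) ∘L u‖ ≤ ‖v'‖ * ‖(C.An n x * P i x) ∘L u‖ :=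
          ContinuousLinearMap.opNorm_comp_le _ _
      _ ≤ ‖v'‖ * (‖C.An n x * P i x‖ * ‖u‖) := by
          gcongr
          exact ContinuousLinearMap.opNorm_comp_le _ _
      _ ≤ R * (‖C.An n x * P i x‖ * R) := by gcongr
      _ = R ^ 2 * ‖C.An n x * P i x‖ := by ring
  have h1 : 1 ≤ 3 ^ N * ((R ^ 2 * ‖C.An n x * P 0 x‖) * (R ^ 2 * ‖C.An n x * P 2 x‖) *
      (R ^ 2 * ‖C.An n x * P 1 x‖) ^ (N - 2)) := by
    refine hba.trans ?_
    gcongr
    · exact hn 0
    · exact hn 2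
    · exact hn 1
  rw [inv_le_iff_one_le_mul₀ (by positivity)]
  refine h1.trans (le_of_eq ?_)
  rw [mul_pow]
  ring

end Pool.Agent.Helper70.RZ
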