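import Pool.Agent.Helper56.RZ.GoalsD

/-!
# Project RZ3 (MP_f32c9c_an), packet GM: the main term
-/

set_option autoImplicit false

open Set Filter Topology

open scoped ContDiff

namespace Pool.Agent.Helper70.RZ

open Pool.Agent.Helper56.RZ

theorem ms1 {N : ℕ} (P B : End N) (t : ℝ) : P * (t • B) = t • (P * B) := by
  ext v
  simp

theorem ms2 {N : ℕ} (P B : End N) (t : ℝ) : (t • P) * B = t • (P * B) := by
  ext v
  simp

theorem ms3 {N : ℕ} (B : End N) (a b : ℝ) : a • (b • B) = (a * b) • B := by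
  ext v
  simp [mul_assoc]

theorem ms4 {N : ℕ} (B : End N) (a : ℝ) : (-a) • B = -(a • B) := by
  ext v
  simp

theorem ms5 {N : ℕ} (B : End N) : (0 : ℝ) • B = 0 := by
  ext v
  simp

theorem alg {N : ℕ} (P B B' D D' : End N) (t : ℝ) (hP : P * P = P) (hD : D = 1 + t • B)
    (hD' : D' = 1 + (-t) • B') (hDD : D' * D = 1) :
    P * (D' * P * D) * P + 1 - P = 1 + (t ^ 2) • (P * B' * (1 - P) * B * P) := by
  have h0 : P * (1 - P) = 0 := by rw [mul_sub, mul_one, hP, sub_self]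
  have h0' : (1 - P) * P = 0 := by rw [sub_mul, one_mul, hP, sub_self]
  have h00 : (1 - P) * (1 - P) = 1 - P := by
    rw [mul_sub, mul_one, h0', sub_zero]
  have h1 : P * D' * (1 - P) = (-t) • (P * B' * (1 - P)) := by
    rw [hD', mul_add, add_mul, mul_one, h0, zero_add, ms1, ms2]
  have h2 : (1 - P) * D * P = t • ((1 - P) * B * P) := by
    rw [hD, mul_add, add_mul, mul_one, h0', zero_add, ms1, ms2]
  have h3 : P * D' * (1 - P) * D * P = (-t ^ 2) • (P * B' * (1 - P) * B * P) := by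
    calc P * D' * (1 - P) * D * P = (P * D' * (1 - P)) * ((1 - P) * D * P) := by
          rw [show (P * D' * (1 - P)) * ((1 - P) * D * P)
            = P * D' * ((1 - P) * (1 - P)) * D * P by simp only [mul_assoc], h00]
      _ = (-t ^ 2) • (P * B' * (1 - P) * B * P) := by
          rw [h1, h2, ms1, ms2, ms3, show t * -t = -t ^ 2 by ring,
            show (P * B' * (1 - P)) * ((1 - P) * B * P)
              = P * B' * ((1 - P) * (1 - P)) * B * P by simp only [mul_assoc], h00]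
  have h4 : P * D' * (1 - P) * D * P = P - P * (D' * P * D) * P := by
    calc P * D' * (1 - P) * D * P = P * (D' * D) * P - P * (D' * P * D) * P := by
          simp only [mul_sub, sub_mul, mul_one, mul_assoc]
      _ = P - P * (D' * P * D) * P := by rw [hDD, mul_one, hP]
  have h5 : P * (D' * P * D) * P = P + (t ^ 2) • (P * B' * (1 - P) * B * P) := by
    have := h4.symm.trans h3
    rw [ms4] at this
    have h6 : P * (D' * P * D) * P = P - -((t ^ 2) • (P * B' * (1 - P) * B * P)) := by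
      rw [← this]; abel
    rw [h6, sub_neg_eq_add]
  rw [h5]
  abel

theorem phlim {N : ℕ} (hLD : StmtLD) (P : End N) (Q : ℝ → End N) (Y : ℝ → End N) (Y0 : End N)
    (hY : Tendsto Y (𝓝[≠] 0) (𝓝 Y0))
    (hQ : ∀ t : ℝ, |t| ≤ 1 → P * Q t * P + 1 - P = 1 + (t ^ 2) • Y t) :
    Tendsto (fun t : ℝ => Ph P (Q t) / t ^ 2) (𝓝[≠] 0)
      (𝓝 (LinearMap.trace ℝ (E N) (Y0 : E N →ₗ[ℝ] E N))) := by
  obtain ⟨c, δ, hδ, hc⟩ := hLD N
  have ht : Tendsto (fun t : ℝ => t) (𝓝[≠] 0) (𝓝 0) :=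
    tendsto_id.mono_left nhdsWithin_le_nhds
  have ht2 : Tendsto (fun t : ℝ => t ^ 2) (𝓝[≠] 0) (𝓝 0) := by
    simpa using ht.pow 2
  let tr : End N →ₗ[ℝ] ℝ := (LinearMap.trace ℝ (E N)) ∘ₗ (ContinuousLinearMap.coeLM ℝ)
  have htr : Continuous tr := LinearMap.continuous_of_finiteDimensional tr
  have htrY : Tendsto (fun t => tr (Y t)) (𝓝[≠] 0) (𝓝 (tr Y0)) := (htr.tendsto Y0).comp hY
  have hz : Tendsto (fun t : ℝ => ‖(t ^ 2) • Y t‖) (𝓝[≠] 0) (𝓝 0) := by
    have h0 := (ht2.smul hY).norm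
    rw [ms5, norm_zero] at h0
    exact h0
  have hev : ∀ᶠ t : ℝ in 𝓝[≠] 0, ‖(t ^ 2) • Y t‖ ≤ δ := hz.eventually (ge_mem_nhds hδ)
  have hev2 : ∀ᶠ t : ℝ in 𝓝[≠] 0, |t| ≤ 1 := by
    have : ∀ᶠ t : ℝ in 𝓝 0, |t| ≤ 1 := by
      have h1 : Tendsto (fun t : ℝ => |t|) (𝓝 0) (𝓝 |(0 : ℝ)|) := continuous_abs.tendsto 0
      rw [abs_zero] at h1
      exact h1.eventually (ge_mem_nhds one_pos)
    exact this.filter_mono nhdsWithin_le_nhds
  have hne : ∀ᶠ t : ℝ in 𝓝[≠] 0, t ≠ 0 := eventually_mem_nhdsWithin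
  have hbound : Tendsto (fun t : ℝ => c * (t ^ 2 * ‖Y t‖ ^ 2)) (𝓝[≠] 0) (𝓝 0) := by
    have := (ht2.mul (hY.norm.pow 2)).const_mul c
    simpa using this
  have hdiff : Tendsto (fun t : ℝ => Ph P (Q t) / t ^ 2 - tr (Y t)) (𝓝[≠] 0) (𝓝 0) := by
    rw [tendsto_zero_iff_norm_tendsto_zero]
    refine squeeze_zero' (Eventually.of_forall fun t => norm_nonneg _) ?_ hbound
    filter_upwards [hev, hev2, hne] with t h1 h2 h3
    have h4 := hc _ h1
    have h5 : Ph P (Q t) = Real.log |LinearMap.det ((1 + (t ^ 2) • Y t : End N) :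
        E N →ₗ[ℝ] E N)| := by
      unfold Ph dt
      rw [hQ t h2]
    have h6 : LinearMap.trace ℝ (E N) (((t ^ 2) • Y t : End N) : E N →ₗ[ℝ] E N)
        = t ^ 2 * tr (Y t) := by
      show tr ((t ^ 2) • Y t) = _
      rw [map_smul, smul_eq_mul]
    rw [← h5, h6] at h4
    have h7 : (0 : ℝ) < t ^ 2 := by positivity
    have h8 : Ph P (Q t) / t ^ 2 - tr (Y t) = (Ph P (Q t) - t ^ 2 * tr (Y t)) / t ^ 2 := by
      field_simp
    rw [h8, Real.norm_eq_abs, abs_div, abs_of_pos h7, div_le_iff₀ h7]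
    refine h4.trans (le_of_eq ?_)
    rw [norm_smul, Real.norm_eq_abs, abs_of_pos h7]
    ring
  have h9 := hdiff.add htrY
  rw [zero_add] at h9
  refine (h9.congr fun t => ?_ : Tendsto (fun t : ℝ => Ph P (Q t) / t ^ 2) (𝓝[≠] 0) (𝓝 (tr Y0)))
  ring

theorem gm : StmtTA → StmtTL → StmtTE → StmtF1 → StmtF4 → StmtLD → StmtGM := by
  intro hTA hTL hTE hF1 hF4 hLD N p hp d s
  obtain ⟨ath, ath2, -, hTLd⟩ := hTL
  obtain ⟨sm1, -, inv1, -, -, -, -⟩ := hTA N p hp d th ath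
  obtain ⟨sm2, -, inv2, -, -, -, -⟩ := hTA N p hp d th2 ath2
  obtain ⟨c, hc1, hc⟩ := hTE N p hp d th ath
  have hX : ContDiff ℝ ∞ d.X := ((hF1 N p hp).2 d).2.1
  have f0 : ∀ z, p 0 * fderiv ℝ d.X z = 0 := (hF4 N p hp d).1
  have smt1 : ∀ t : ℝ, Differentiable ℝ (d.Ha th t) := fun t =>
    (sm1.comp (contDiff_const.prodMk contDiff_id : ContDiff ℝ ∞ fun z : E N => (t, z))).differentiable
      (by simp)
  have smt2 : ∀ t : ℝ, Differentiable ℝ (d.Ha th2 t) := fun t =>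
    (sm2.comp (contDiff_const.prodMk contDiff_id : ContDiff ℝ ∞ fun z : E N => (t, z))).differentiable
      (by simp)
  have hXd : Differentiable ℝ d.X := hX.differentiable (by simp)
  have inv1' : ∀ (t : ℝ) (z : E N), d.Ha th t (d.Ha th (-t) z) = z := by
    intro t z
    have := inv1 (-t) z
    rwa [neg_neg] at this
  -- derivative of the twist
  have der : ∀ (t : ℝ) (z : E N), |t| ≤ 1 → fderiv ℝ (d.Ha th2 t) z =
      1 + t • (fderiv ℝ d.X (d.Ha th t z) * fderiv ℝ (d.Ha th t) z) := by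
    intro t z ht
    have h1 : d.Ha th2 t = fun z => z + t • d.X (d.Ha th t z) := by
      funext z
      rw [← (hTLd N p hp d t z).2 ht]
      abel
    have h2 : HasFDerivAt (fun z => z + t • d.X (d.Ha th t z))
        ((ContinuousLinearMap.id ℝ (E N)) + t • ((fderiv ℝ d.X (d.Ha th t z)).comp
          (fderiv ℝ (d.Ha th t) z))) z := by
      have h3 : HasFDerivAt (fun z => d.X (d.Ha th t z))
          ((fderiv ℝ d.X (d.Ha th t z)).comp (fderiv ℝ (d.Ha th t) z)) z :=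
        (hXd (d.Ha th t z)).hasFDerivAt.comp z (smt1 t z).hasFDerivAt
      exact (hasFDerivAt_id z).add (h3.const_smul t)
    rw [h1]
    exact h2.fderiv
  set A : End N := fderiv ℝ d.X s with hA
  let Ee : ℝ → End N := fun t => fderiv ℝ (d.Ha th t) (d.Ha th (-t) s)
  have hD : ∀ t : ℝ, |t| ≤ 1 → d.Dd t s = 1 + t • (A * Ee t) := by
    intro t ht
    show fderiv ℝ (d.Ha th2 t) (d.Ha th (-t) s) = _
    rw [der t _ ht, inv1']
  have hDD : ∀ t : ℝ, d.Dd (-t) s * d.Dd t s = 1 := by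
    intro t
    show fderiv ℝ (d.Ha th2 (-t)) (d.Ha th (-(-t)) s) *
      fderiv ℝ (d.Ha th2 t) (d.Ha th (-t) s) = 1
    rw [neg_neg]
    have h1 : d.Ha th2 t (d.Ha th (-t) s) = d.Ha th t s := by
      rw [(hTLd N p hp d t _).1, inv1']
    have h2 : HasFDerivAt (fun z => d.Ha th2 (-t) (d.Ha th2 t z))
        ((fderiv ℝ (d.Ha th2 (-t)) (d.Ha th2 t (d.Ha th (-t) s))).comp
          (fderiv ℝ (d.Ha th2 t) (d.Ha th (-t) s))) (d.Ha th (-t) s) :=
      (smt2 (-t) _).hasFDerivAt.comp _ (smt2 t _).hasFDerivAt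
    have h3 : (fun z => d.Ha th2 (-t) (d.Ha th2 t z)) = fun z => z := by
      funext z; exact inv2 t z
    rw [h3, h1] at h2
    exact h2.unique (hasFDerivAt_id _)
  have hE : Tendsto Ee (𝓝 0) (𝓝 1) := by
    rw [tendsto_iff_norm_sub_tendsto_zero]
    have h1 : Tendsto (fun t : ℝ => c * |t|) (𝓝 0) (𝓝 0) := by
      have := (continuous_abs.tendsto (0 : ℝ)).const_mul c
      simpa using this
    refine squeeze_zero' (Eventually.of_forall fun t => norm_nonneg _) ?_ h1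
    have h2 : ∀ᶠ t : ℝ in 𝓝 0, |t| ≤ 1 := by
      have h1 : Tendsto (fun t : ℝ => |t|) (𝓝 0) (𝓝 |(0 : ℝ)|) := continuous_abs.tendsto 0
      rw [abs_zero] at h1
      exact h1.eventually (ge_mem_nhds one_pos)
    filter_upwards [h2] with t ht
    exact (hc t _ ht).2
  have hE' : Tendsto (fun t => Ee (-t)) (𝓝 0) (𝓝 1) := by
    have h1 : Tendsto (fun t : ℝ => -t) (𝓝 0) (𝓝 0) := by
      simpa using (continuous_neg.tendsto (0 : ℝ))
    exact hE.comp h1
  have key : ∀ i, Tendsto (fun t : ℝ => Ph (p i) (d.Dd (-t) s * p i * d.Dd t s) / t ^ 2)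
      (𝓝[≠] 0) (𝓝 (LinearMap.trace ℝ (E N)
        ((p i * A * (1 - p i) * A * p i : End N) : E N →ₗ[ℝ] E N))) := by
    intro i
    refine phlim hLD (p i) (fun t => d.Dd (-t) s * p i * d.Dd t s)
      (fun t => p i * (A * Ee (-t)) * (1 - p i) * (A * Ee t) * p i) _ ?_ ?_
    · refine Tendsto.mono_left ?_ nhdsWithin_le_nhds
      have h1 : Tendsto (fun t => A * Ee t) (𝓝 0) (𝓝 (A * 1)) := hE.const_mul A
      have h2 : Tendsto (fun t => A * Ee (-t)) (𝓝 0) (𝓝 (A * 1)) := hE'.const_mul A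
      rw [mul_one] at h1 h2
      exact (((h2.const_mul (p i)).mul_const (1 - p i)).mul h1).mul_const (p i)
    · intro t ht
      have hPP : p i * p i = p i := by
        have := hp.proj i i
        rwa [if_pos rfl] at this
      refine alg (p i) (A * Ee t) (A * Ee (-t)) (d.Dd t s) (d.Dd (-t) s) t hPP (hD t ht) ?_ (hDD t)
      exact hD (-t) (by rwa [abs_neg])
  have k0 : LinearMap.trace ℝ (E N) ((p 0 * A * (1 - p 0) * A * p 0 : End N) :
      E N →ₗ[ℝ] E N) = 0 := by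
    rw [hA, f0 s, zero_mul, zero_mul, zero_mul]
    simp
  have k2 : LinearMap.trace ℝ (E N) ((p 2 * A * (1 - p 2) * A * p 2 : End N) :
      E N →ₗ[ℝ] E N) = - d.g s := by
    have h1 : (1 : End N) - p 2 = p 0 + p 1 := by
      rw [← hp.sum]; abel
    have h2 : p 2 * A * (1 - p 2) * A * p 2 = p 2 * (A * p 1 * A * p 2) := by
      rw [h1, mul_add, add_mul, add_mul]
      have : p 2 * A * p 0 * A * p 2 = 0 := by
        rw [show p 2 * A * p 0 * A * p 2 = p 2 * A * (p 0 * A) * p 2 by simp only [mul_assoc],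
          f0 s, mul_zero, zero_mul]
      rw [this, zero_add]
      simp only [mul_assoc]
    have h22 : p 2 * p 2 = p 2 := by
      have := hp.proj 2 2
      rwa [if_pos rfl] at this
    have h11 : p 1 * p 1 = p 1 := by
      have := hp.proj 1 1
      rwa [if_pos rfl] at this
    have tc : ∀ U V : End N, LinearMap.trace ℝ (E N) ((U * V : End N) : E N →ₗ[ℝ] E N) =
        LinearMap.trace ℝ (E N) ((V * U : End N) : E N →ₗ[ℝ] E N) := by
      intro U V
      exact LinearMap.trace_mul_comm ℝ (U : E N →ₗ[ℝ] E N) (V : E N →ₗ[ℝ] E N)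
    have h3 : LinearMap.trace ℝ (E N) ((p 2 * (A * p 1 * A * p 2) : End N) : E N →ₗ[ℝ] E N) =
        LinearMap.trace ℝ (E N) (((A * p 1) * (A * p 2) : End N) : E N →ₗ[ℝ] E N) := by
      rw [tc (p 2) (A * p 1 * A * p 2), show A * p 1 * A * p 2 * p 2 = (A * p 1) * (A * p 2) by
        rw [mul_assoc (A * p 1 * A), h22]; simp only [mul_assoc]]
    have h4 : LinearMap.trace ℝ (E N) ((p 1 * A * p 2 * A * p 1 : End N) : E N →ₗ[ℝ] E N) =
        LinearMap.trace ℝ (E N) (((A * p 1) * (A * p 2) : End N) : E N →ₗ[ℝ] E N) := by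
      rw [show p 1 * A * p 2 * A * p 1 = p 1 * (A * p 2 * A * p 1) by simp only [mul_assoc],
        tc (p 1) (A * p 2 * A * p 1), show A * p 2 * A * p 1 * p 1 = (A * p 2) * (A * p 1) by
        rw [mul_assoc (A * p 2 * A), h11]; simp only [mul_assoc], tc (A * p 2) (A * p 1)]
    rw [h2, h3, ← h4]
    unfold Tw.g
    rw [neg_neg]
  have h0 := key 0
  have h2 := key 2
  rw [k0] at h0
  rw [k2] at h2
  have := h0.sub h2
  rw [zero_sub, neg_neg] at this
  refine this.congr fun t => ?_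
  unfold Ps
  rw [sub_div]

end Pool.Agent.Helper70.RZ
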